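import Mathlib

set_option autoImplicit false

/-!
# MP_057a77_an: Rioul's conjecture on Zak transforms fails in every smoothness class

For odd `m ≥ 3` let `f_0` be the indicator function of `[0, m)` and
`f_{n+1}(t) = ∫_{t-1}^t f_n(s) ds`.  The function `φ = f_{r+1}` is a nonnegative compactly supported
function of class `C^r` (for `r = 0` it is a trapezoid), it satisfies a dilation equation with symbol
`D = 2^{-(r+1)} (1 + z)^{r+1} (1 + z^m)`, `z = e^{2πiξ}`, which has no pair of symmetric zeros since
`D(ξ) = 0` forces `z^m = -1` while `D(ξ + 1/2) = 0` forces `z^m = 1`.  But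
`Zφ(t, j/m) = 0` for every real `t` and every integer `j` not divisible by `m`.
-/

namespace Pool.Agent.Results.MP_057a77_an.NoAdmissibleShift

open MeasureTheory intervalIntegral Polynomial

/-- The Zak transform `Zf(t, ξ) = ∑_k f(t + k) e^{2πikξ}`, the sum over all integers `k`. -/
noncomputable def zak (f : ℝ → ℝ) (t ξ : ℝ) : ℂ :=
  ∑' k : ℤ, (f (t + k) : ℂ) * Complex.exp (2 * Real.pi * Complex.I * k * ξ)

/-- The symbol `D(ξ) = ∑_k d_k e^{2πikξ}` of a mask `(d_k)_{k ≥ 0}`, given as a polynomial. -/
noncomputable def symbol (d : ℝ[X]) (ξ : ℝ) : ℂ :=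
  aeval (Complex.exp (2 * Real.pi * Complex.I * ξ)) d

/-- The dilation equation `f(t/2) = ∑_k d_k f(t - k)` for all real `t`. -/
def Refinable (f : ℝ → ℝ) (d : ℝ[X]) : Prop :=
  ∀ t : ℝ, f (t / 2) = ∑ k ∈ Finset.range (d.natDegree + 1), d.coeff k * f (t - k)

/-- The translation operator. -/
noncomputable def S : (ℝ → ℝ) →ₗ[ℝ] (ℝ → ℝ) where
  toFun f := fun t => f (t - 1)
  map_add' _ _ := rfl
  map_smul' _ _ := rfl

theorem S_pow (k : ℕ) (f : ℝ → ℝ) (t : ℝ) : (S ^ k) f t = f (t - k) := by
  induction k generalizing t with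
  | zero => simp
  | succ k ih =>
    rw [pow_succ']
    show (S ^ k) f (t - 1) = _
    rw [ih]; congr 1; push_cast; ring

theorem aeval_S (d : ℝ[X]) (f : ℝ → ℝ) (t : ℝ) :
    aeval S d f t = ∑ k ∈ Finset.range (d.natDegree + 1), d.coeff k * f (t - k) := by
  rw [aeval_eq_sum_range, LinearMap.sum_apply, Finset.sum_apply]
  refine Finset.sum_congr rfl fun k _ => ?_
  rw [LinearMap.smul_apply, Pi.smul_apply, S_pow, smul_eq_mul]

theorem refinable_iff (f : ℝ → ℝ) (d : ℝ[X]) :
    Refinable f d ↔ ∀ t : ℝ, f (t / 2) = aeval S d f t := by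
  unfold Refinable
  exact forall_congr' fun t => by rw [aeval_S]

/-- The running mean. -/
noncomputable def avg (f : ℝ → ℝ) (t : ℝ) : ℝ := ∫ s in (t - 1)..t, f s

theorem refinable_avg {f : ℝ → ℝ} (hf : ∀ a b : ℝ, IntervalIntegrable f volume a b) {d : ℝ[X]}
    (h : Refinable f d) : Refinable (avg f) (C (1 / 2) * (1 + X) * d) := by
  rw [refinable_iff]
  intro t
  have h1 : avg f (t / 2) = (1 / 2) * ∫ u in (t - 2)..t, f (u / 2) := by
    have := intervalIntegral.integral_comp_div (a := t - 2) (b := t) f (c := (2 : ℝ)) two_ne_zero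
    rw [this, smul_eq_mul, ← mul_assoc]
    norm_num
    rw [avg, show (t - 2) / 2 = t / 2 - 1 by ring]
  have h2 : ∫ u in (t - 2)..t, f (u / 2)
      = ∑ k ∈ Finset.range (d.natDegree + 1), d.coeff k * (avg f (t - k) + avg f (t - 1 - k)) := by
    have e : ∀ u : ℝ, f (u / 2) = ∑ k ∈ Finset.range (d.natDegree + 1), d.coeff k * f (u - k) := h
    rw [intervalIntegral.integral_congr (fun u _ => e u), intervalIntegral.integral_finsetSum]
    · refine Finset.sum_congr rfl fun k _ => ?_
      rw [intervalIntegral.integral_const_mul,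
        intervalIntegral.integral_comp_sub_right (fun x => f x) (k : ℝ)]
      congr 1
      rw [avg, avg, add_comm, ← intervalIntegral.integral_add_adjacent_intervals
        (hf (t - 2 - k) (t - 1 - k)) (hf (t - 1 - k) (t - k))]
      congr 2 <;> ring_nf
    · intro k _
      refine IntervalIntegrable.const_mul ?_ _
      have := (hf (t - 2 - k) (t - k)).comp_sub_right (k : ℝ)
      simpa using this
  have h3 : aeval S (C (1 / 2) * (1 + X) * d) (avg f) t
      = (1 / 2) * ∑ k ∈ Finset.range (d.natDegree + 1),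
          d.coeff k * (avg f (t - k) + avg f (t - 1 - k)) := by
    rw [mul_assoc, map_mul, map_mul, map_add, map_one, aeval_X, aeval_C]
    show (1 / 2 : ℝ) * ((1 + S) (aeval S d (avg f))) t = _
    congr 1
    show aeval S d (avg f) t + aeval S d (avg f) (t - 1) = _
    rw [aeval_S, aeval_S, ← Finset.sum_add_distrib]
    exact Finset.sum_congr rfl fun k _ => by ring
  rw [h1, h2, h3]

/-- The indicator function of `[0, m)`. -/
noncomputable def box (m : ℕ) (t : ℝ) : ℝ := if 0 ≤ t ∧ t < m then 1 else 0

theorem refinable_box (m : ℕ) : Refinable (box m) (1 + X ^ m) := by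
  rw [refinable_iff]
  intro t
  rw [map_add, map_one, map_pow, aeval_X]
  show box m (t / 2) = box m t + (S ^ m) (box m) t
  rw [S_pow]
  unfold box
  by_cases h0 : 0 ≤ t
  · by_cases h1 : t < m
    · rw [if_pos ⟨by linarith, by linarith⟩, if_pos ⟨h0, h1⟩, if_neg (by rintro ⟨h, -⟩; linarith)]
      norm_num
    · push Not at h1
      by_cases h2 : t < 2 * m
      · rw [if_pos ⟨by linarith, by linarith⟩, if_neg (by rintro ⟨-, h⟩; linarith),
          if_pos ⟨by linarith, by linarith⟩]
        norm_num
      · push Not at h2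
        rw [if_neg (by rintro ⟨-, h⟩; linarith), if_neg (by rintro ⟨-, h⟩; linarith),
          if_neg (by rintro ⟨-, h⟩; linarith)]
        norm_num
  · push Not at h0
    have hm : (0 : ℝ) ≤ m := Nat.cast_nonneg m
    rw [if_neg (by rintro ⟨h, -⟩; linarith), if_neg (by rintro ⟨h, -⟩; linarith),
      if_neg (by rintro ⟨h, -⟩; linarith)]
    norm_num

theorem box_integrable (m : ℕ) (a b : ℝ) : IntervalIntegrable (box m) volume a b := by
  have hmeas : Measurable (box m) := by
    unfold box
    refine Measurable.ite ?_ measurable_const measurable_const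
    exact (measurableSet_Ici (a := (0 : ℝ))).inter (measurableSet_Iio (a := (m : ℝ)))
  refine intervalIntegrable_iff.2 ?_
  refine MeasureTheory.Measure.integrableOn_of_bounded (M := 1) ?_ hmeas.aestronglyMeasurable ?_
  · simp
  · refine Filter.Eventually.of_forall fun x => ?_
    unfold box
    split_ifs <;> simp

/-- `e(kξ)`. -/
theorem exp_pow (ξ : ℝ) (k : ℤ) (i : ℕ) :
    Complex.exp (2 * Real.pi * Complex.I * ((k + i : ℤ) : ℂ) * ξ)
      = Complex.exp (2 * Real.pi * Complex.I * (k : ℂ) * ξ)
        * Complex.exp (2 * Real.pi * Complex.I * ξ) ^ i := by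
  rw [← Complex.exp_nat_mul, ← Complex.exp_add]
  congr 1
  push_cast
  ring

theorem zak_box (m : ℕ) (ξ : ℝ) (h1 : Complex.exp (2 * Real.pi * Complex.I * ξ) ≠ 1)
    (hm : Complex.exp (2 * Real.pi * Complex.I * ξ) ^ m = 1) (t : ℝ) : zak (box m) t ξ = 0 := by
  unfold zak
  set c : ℤ := ⌈-t⌉ with hc
  rw [tsum_eq_sum (s := (Finset.range m).image (fun i : ℕ => c + (i : ℤ)))]
  · rw [Finset.sum_image (by intro a _ b _ h; simpa using h)]
    have : ∀ i ∈ Finset.range m,
        (box m (t + ((c + (i : ℤ) : ℤ) : ℝ)) : ℂ)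
            * Complex.exp (2 * Real.pi * Complex.I * ((c + (i : ℤ) : ℤ) : ℂ) * ξ)
          = Complex.exp (2 * Real.pi * Complex.I * (c : ℂ) * ξ)
            * Complex.exp (2 * Real.pi * Complex.I * ξ) ^ i := by
      intro i hi
      rw [Finset.mem_range] at hi
      rw [exp_pow]
      have hb : box m (t + ((c + (i : ℤ) : ℤ) : ℝ)) = 1 := by
        unfold box
        rw [if_pos]
        push_cast
        have h2 : -t ≤ c := Int.le_ceil _
        have h3 : (c : ℝ) < -t + 1 := Int.ceil_lt_add_one _
        have h4 : (i : ℝ) + 1 ≤ m := by exact_mod_cast hi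
        have h5 : (0 : ℝ) ≤ i := Nat.cast_nonneg i
        constructor <;> linarith
      rw [hb]; simp
    rw [Finset.sum_congr rfl this, ← Finset.mul_sum]
    have hg : (∑ i ∈ Finset.range m, Complex.exp (2 * Real.pi * Complex.I * ξ) ^ i) = 0 := by
      have := mul_neg_geom_sum (Complex.exp (2 * Real.pi * Complex.I * ξ)) m
      rw [hm, sub_self] at this
      rcases mul_eq_zero.1 this with h | h
      · exact absurd (sub_eq_zero.1 h).symm h1
      · exact h
    rw [hg, mul_zero]
  · intro k hk
    have hb : box m (t + (k : ℝ)) = 0 := by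
      unfold box
      rw [if_neg]
      rintro ⟨ha, hb⟩
      apply hk
      rw [Finset.mem_image]
      have hk1 : c ≤ k := by
        rw [hc, Int.ceil_le]; linarith
      have hk2 : k < c + m := by
        have h2 : -t ≤ c := Int.le_ceil _
        have : (k : ℝ) < c + m := by linarith
        exact_mod_cast this
      refine ⟨(k - c).toNat, ?_, ?_⟩
      · rw [Finset.mem_range]; omega
      · omega
    rw [hb]; simp

theorem zak_avg {f : ℝ → ℝ} (hf : ∀ a b : ℝ, IntervalIntegrable f volume a b) (L : ℝ)
    (hL : ∀ s, f s ≠ 0 → 0 ≤ s ∧ s ≤ L) (ξ : ℝ) (h : ∀ t, zak f t ξ = 0) (t : ℝ) :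
    zak (avg f) t ξ = 0 := by
  unfold zak
  set F : Finset ℤ := Finset.Icc ⌊-t⌋ ⌈L - t + 1⌉ with hF
  have out : ∀ k ∉ F, ∀ s ∈ Set.uIcc (t - 1) t, f (s + k) = 0 := by
    intro k hk s hs
    by_contra hne
    rw [Set.uIcc_of_le (by linarith)] at hs
    obtain ⟨ha, hb⟩ := hL _ hne
    apply hk
    rw [hF, Finset.mem_Icc]
    constructor
    · have : (⌊-t⌋ : ℝ) ≤ -t := Int.floor_le _
      have : (⌊-t⌋ : ℝ) ≤ k := by linarith [hs.2]
      exact_mod_cast this
    · have : L - t + 1 ≤ (⌈L - t + 1⌉ : ℝ) := Int.le_ceil _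
      have : (k : ℝ) ≤ ⌈L - t + 1⌉ := by linarith [hs.1]
      exact_mod_cast this
  have shift : ∀ k : ℤ, avg f (t + k) = ∫ s in (t - 1)..t, f (s + k) := by
    intro k
    rw [intervalIntegral.integral_comp_add_right (fun x => f x) (k : ℝ), avg]
    congr 1; ring
  rw [tsum_eq_sum (s := F)]
  · have e : ∀ k ∈ F, ((avg f (t + k) : ℝ) : ℂ) * Complex.exp (2 * Real.pi * Complex.I * k * ξ)
        = ∫ s in (t - 1)..t, (f (s + k) : ℂ) * Complex.exp (2 * Real.pi * Complex.I * k * ξ) := by
      intro k _
      rw [intervalIntegral.integral_mul_const, shift, intervalIntegral.integral_ofReal]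
    rw [Finset.sum_congr rfl e, ← intervalIntegral.integral_finsetSum]
    · have : ∀ s ∈ Set.uIcc (t - 1) t,
          (∑ k ∈ F, (f (s + k) : ℂ) * Complex.exp (2 * Real.pi * Complex.I * k * ξ))
            = (fun _ => (0 : ℂ)) s := by
        intro s hs
        have h0 := h s
        unfold zak at h0
        rw [tsum_eq_sum (s := F)] at h0
        · exact h0
        · intro k hk
          rw [out k hk s hs]; simp
      rw [intervalIntegral.integral_congr this]
      simp
    · intro k _
      refine IntervalIntegrable.mul_const ?_ _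
      have h1 : IntervalIntegrable (fun s => f (s + k)) volume (t - 1) t := by
        have := (hf (t - 1 + k) (t + k)).comp_add_right (k : ℝ)
        simpa using this
      exact ⟨h1.1.ofReal, h1.2.ofReal⟩
  · intro k hk
    rw [shift, intervalIntegral.integral_congr (g := fun _ => (0 : ℝ)) (fun s hs => out k hk s hs)]
    simp

/-- The functions `f_n`. -/
noncomputable def F (m : ℕ) : ℕ → ℝ → ℝ
  | 0 => box m
  | n + 1 => avg (F m n)

/-- The masks. -/
noncomputable def D (m : ℕ) : ℕ → ℝ[X]
  | 0 => 1 + X ^ m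
  | n + 1 => C (1 / 2) * (1 + X) * D m n

theorem continuous_avg {f : ℝ → ℝ} (hf : ∀ a b : ℝ, IntervalIntegrable f volume a b) :
    Continuous (avg f) := by
  have h1 : Continuous (fun t => ∫ s in (0 : ℝ)..t, f s) :=
    intervalIntegral.continuous_primitive hf 0
  have : avg f = fun t => (∫ s in (0 : ℝ)..t, f s) - ∫ s in (0 : ℝ)..(t - 1), f s := by
    funext t
    rw [avg, intervalIntegral.integral_interval_sub_left (hf _ _) (hf _ _)]
  rw [this]
  exact h1.sub (h1.comp (continuous_id.sub continuous_const))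

theorem F_integrable (m n : ℕ) (a b : ℝ) : IntervalIntegrable (F m n) volume a b := by
  induction n generalizing a b with
  | zero => exact box_integrable m a b
  | succ n ih => exact (continuous_avg ih).intervalIntegrable a b

theorem F_continuous (m n : ℕ) : Continuous (F m (n + 1)) := continuous_avg (F_integrable m n)

theorem F_contDiff (m n : ℕ) : ContDiff ℝ n (F m (n + 1)) := by
  induction n with
  | zero => exact_mod_cast contDiff_zero.2 (F_continuous m 0)
  | succ n ih =>
    have hc : Continuous (F m (n + 1)) := F_continuous m n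
    have hder : ∀ t, HasDerivAt (F m (n + 2)) (F m (n + 1) t - F m (n + 1) (t - 1)) t := by
      intro t
      have h1 : ∀ x, HasDerivAt (fun t => ∫ s in (0 : ℝ)..t, F m (n + 1) s) (F m (n + 1) x) x :=
        fun x => intervalIntegral.integral_hasDerivAt_right (hc.intervalIntegrable _ _)
          (hc.stronglyMeasurableAtFilter _ _) hc.continuousAt
      have e : F m (n + 2) = fun t => (∫ s in (0 : ℝ)..t, F m (n + 1) s)
          - ∫ s in (0 : ℝ)..(t - 1), F m (n + 1) s := by
        funext t
        show avg (F m (n + 1)) t = _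
        rw [avg, intervalIntegral.integral_interval_sub_left (F_integrable m (n+1) _ _)
          (F_integrable m (n+1) _ _)]
      rw [e]
      have h2 := (h1 (t - 1)).comp t ((hasDerivAt_id t).sub_const 1)
      simp only [mul_one] at h2
      exact (h1 t).sub h2
    have : ContDiff ℝ (n + 1) (F m (n + 2)) := by
      rw [contDiff_succ_iff_deriv]
      refine ⟨fun t => (hder t).differentiableAt, by simp, ?_⟩
      have e : deriv (F m (n + 2)) = fun t => F m (n + 1) t - F m (n + 1) (t - 1) :=
        funext fun t => (hder t).deriv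
      rw [e]
      exact ih.sub (ih.comp (contDiff_id.sub contDiff_const))
    exact_mod_cast this

theorem F_support (m n : ℕ) : ∀ s, F m n s ≠ 0 → 0 ≤ s ∧ s ≤ m + n := by
  induction n with
  | zero =>
    intro s hs
    have : 0 ≤ s ∧ s < m := by
      by_contra h
      exact hs (if_neg h)
    refine ⟨this.1, ?_⟩
    push_cast
    linarith [this.2]
  | succ n ih =>
    intro s hs
    by_contra h
    apply hs
    show avg (F m n) s = 0
    rw [avg, intervalIntegral.integral_congr (g := fun _ => (0 : ℝ))]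
    · simp
    · intro x hx
      rw [Set.uIcc_of_le (by linarith)] at hx
      by_contra hne
      obtain ⟨h1, h2⟩ := ih x hne
      apply h
      push_cast
      constructor <;> linarith [hx.1, hx.2]

theorem F_nonneg (m n : ℕ) : ∀ s, 0 ≤ F m n s := by
  induction n with
  | zero => intro s; show 0 ≤ box m s; unfold box; split_ifs <;> norm_num
  | succ n ih =>
    intro s
    exact intervalIntegral.integral_nonneg (by linarith) fun x _ => ih x

theorem F_pos (m : ℕ) (hm : 1 ≤ m) (n : ℕ) : ∃ s, 0 < F m (n + 1) s := by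
  induction n with
  | zero =>
    refine ⟨1, ?_⟩
    show 0 < avg (box m) 1
    have hm' : (1 : ℝ) ≤ m := by exact_mod_cast hm
    have : avg (box m) 1 = ∫ _ in (0 : ℝ)..1, (1 : ℝ) := by
      rw [avg, show (1 : ℝ) - 1 = 0 by norm_num]
      apply intervalIntegral.integral_congr_ae
      have h1 : ∀ᵐ x : ℝ ∂volume, x ≠ 1 := by
        simp [ae_iff]
      filter_upwards [h1] with x hx1 hx
      rw [Set.uIoc_of_le (by norm_num)] at hx
      unfold box
      rw [if_pos ⟨hx.1.le, lt_of_lt_of_le (lt_of_le_of_ne hx.2 hx1) hm'⟩]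
    rw [this]; simp
  | succ n ih =>
    obtain ⟨s, hs⟩ := ih
    refine ⟨s + 1 / 2, ?_⟩
    show 0 < avg (F m (n + 1)) (s + 1 / 2)
    refine intervalIntegral.integral_pos (by linarith) (F_continuous m n).continuousOn
      (fun x _ => F_nonneg m (n + 1) x) ⟨s, ⟨by linarith, by linarith⟩, hs⟩

theorem F_refinable (m n : ℕ) : Refinable (F m n) (D m n) := by
  induction n with
  | zero => exact refinable_box m
  | succ n ih => exact refinable_avg (F_integrable m n) ih

theorem F_zak (m n : ℕ) (ξ : ℝ) (h1 : Complex.exp (2 * Real.pi * Complex.I * ξ) ≠ 1)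
    (hm : Complex.exp (2 * Real.pi * Complex.I * ξ) ^ m = 1) : ∀ t, zak (F m n) t ξ = 0 := by
  induction n with
  | zero => exact zak_box m ξ h1 hm
  | succ n ih => exact zak_avg (F_integrable m n) (m + n) (F_support m n) ξ ih

theorem D_zero (m n : ℕ) (hm : Odd m) (z : ℂ) (h : aeval z (D m n) = 0) : z ^ m = -1 := by
  induction n with
  | zero =>
    simp only [D, map_add, map_one, map_pow, aeval_X] at h
    linear_combination h
  | succ n ih =>
    simp only [D, map_mul, map_add, map_one, aeval_X, aeval_C] at h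
    rcases mul_eq_zero.1 h with h | h
    · rcases mul_eq_zero.1 h with h | h
      · exfalso
        have : (1 / 2 : ℝ) ≠ 0 := by norm_num
        exact this ((algebraMap ℝ ℂ).injective (by rw [h, map_zero]))
      · have : z = -1 := by linear_combination h
        rw [this, hm.neg_one_pow]
    · exact ih h

theorem D_one (m n : ℕ) : (D m n).eval 1 = 2 := by
  induction n with
  | zero => simp [D]; norm_num
  | succ n ih => simp [D, ih]; norm_num

theorem D_dvd (m n : ℕ) (hm : Odd m) : (1 + X : ℝ[X]) ^ (n + 1) ∣ D m n := by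
  induction n with
  | zero =>
    simp only [D, zero_add, pow_one]
    have := hm.add_dvd_pow_add_pow (1 : ℝ[X]) X
    simpa using this
  | succ n ih =>
    obtain ⟨g, hg⟩ := ih
    refine ⟨C (1 / 2) * g, ?_⟩
    show C (1 / 2) * (1 + X) * D m n = _
    rw [hg]; ring

/-- **Rioul's conjecture fails in every smoothness class.**  For every `r` and every odd `m ≥ 3`
there is a function `φ ≥ 0`, not zero, of class `C^r` with compact support, satisfying a dilation
equation with a finite mask whose symbol `D` satisfies `D(0) = 2`, has a zero of order at least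
`r + 2` at `ξ = 1/2` and has no pair of symmetric zeros, such that for every real `t` the function
`ξ ↦ Zφ(t, ξ)` vanishes at all points `ξ = j/m`, `j` an integer not divisible by `m`. -/
theorem result (r m : ℕ) (hm : Odd m) (hm3 : 3 ≤ m) :
    ∃ (φ : ℝ → ℝ) (d : ℝ[X]), ContDiff ℝ r φ ∧ HasCompactSupport φ ∧ (∀ t, 0 ≤ φ t) ∧
      (∃ t, φ t ≠ 0) ∧ Refinable φ d ∧ d.eval 1 = 2 ∧ (1 + X) ^ (r + 2) ∣ d ∧
      (¬ ∃ ξ : ℝ, symbol d ξ = 0 ∧ symbol d (ξ + 1 / 2) = 0) ∧
      ∀ (t : ℝ) (j : ℤ), ¬ (m : ℤ) ∣ j → zak φ t (j / m) = 0 := by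
  refine ⟨F m (r + 1), D m (r + 1), F_contDiff m r, ?_, F_nonneg m _, ?_, F_refinable m _,
    D_one m _, D_dvd m _ hm, ?_, ?_⟩
  · refine HasCompactSupport.intro (isCompact_Icc (a := (0 : ℝ)) (b := m + (r + 1 : ℕ))) ?_
    intro x hx
    by_contra hne
    exact hx (F_support m (r + 1) x hne)
  · obtain ⟨s, hs⟩ := F_pos m (by omega) r
    exact ⟨s, hs.ne'⟩
  · rintro ⟨ξ, h1, h2⟩
    have e1 := D_zero m _ hm _ h1
    have e2 := D_zero m _ hm _ h2
    have e3 : Complex.exp (2 * Real.pi * Complex.I * ((ξ + 1 / 2 : ℝ) : ℂ))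
        = - Complex.exp (2 * Real.pi * Complex.I * ξ) := by
      rw [show (2 * Real.pi * Complex.I * ((ξ + 1 / 2 : ℝ) : ℂ) : ℂ)
        = 2 * Real.pi * Complex.I * ξ + Real.pi * Complex.I by push_cast; ring,
        Complex.exp_add, Complex.exp_pi_mul_I]
      ring
    rw [e3, hm.neg_pow, e1] at e2
    norm_num at e2
  · intro t j hj
    have hm0 : (m : ℂ) ≠ 0 := by
      exact_mod_cast (by omega : m ≠ 0)
    refine F_zak m (r + 1) _ ?_ ?_ t
    · intro h
      rw [Complex.exp_eq_one_iff] at h
      obtain ⟨n, hn⟩ := h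
      apply hj
      refine ⟨n, ?_⟩
      have hpi : (2 * Real.pi * Complex.I : ℂ) ≠ 0 := Complex.two_pi_I_ne_zero
      have : ((j / m : ℝ) : ℂ) = n := by
        apply mul_left_cancel₀ hpi
        rw [hn]; ring
      push_cast at this
      have h2 : (j : ℂ) = m * n := by
        rw [← this]; field_simp
      exact_mod_cast h2
    · rw [← Complex.exp_nat_mul, Complex.exp_eq_one_iff]
      refine ⟨j, ?_⟩
      push_cast
      field_simp

end Pool.Agent.Results.MP_057a77_an.NoAdmissibleShift
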